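import Pool.Agent.Helper16.BZ.Stmts

open Finset Filter MeasureTheory Topology
open scoped ComplexConjugate InnerProductSpace

namespace Pool.Agent.Helper16.BZ

open Pool.Agent.Helper16.AZ (T E Op mm Eig PP ST_VDH ST_MSR ST_MRF ST_FPV ST_TLR)
open Pool.Agent.Helper16.MD (MS PB Am RW Rich)
open UnitAddTorus (mFourier)

/-- the tensor product of a vector and a conjugate vector -/
noncomputable def gam2_t {d : ℕ} (v w : E d) : EuclideanSpace ℂ (Fin d × Fin d) :=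
  WithLp.toLp 2 fun p => v p.1 * conj (w p.2)

theorem gam2_inner {d : ℕ} (v w v' w' : E d) :
    (inner ℂ (gam2_t v w) (gam2_t v' w') : ℂ) = inner ℂ v v' * conj (inner ℂ w w' : ℂ) := by
  simp only [PiLp.inner_apply, gam2_t, RCLike.inner_apply]
  rw [Fintype.sum_prod_type, map_sum, Finset.sum_mul_sum]
  refine Finset.sum_congr rfl fun i _ => Finset.sum_congr rfl fun j _ => ?_
  simp only [map_mul, Complex.conj_conj]
  ring

theorem gam2_norm {d : ℕ} (v w : E d) : ‖gam2_t v w‖ = ‖v‖ * ‖w‖ := by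
  have h1 : ‖gam2_t v w‖ ^ 2 = (‖v‖ * ‖w‖) ^ 2 := by
    have h2 : ((‖gam2_t v w‖ ^ 2 : ℝ) : ℂ) = (((‖v‖ * ‖w‖) ^ 2 : ℝ) : ℂ) := by
      have h3 := gam2_inner v w v w
      rw [inner_self_eq_norm_sq_to_K, inner_self_eq_norm_sq_to_K, inner_self_eq_norm_sq_to_K] at h3
      push_cast
      rw [mul_pow]
      simpa using h3
    exact_mod_cast h2
  have h4 : 0 ≤ ‖v‖ * ‖w‖ := by positivity
  exact (pow_left_inj₀ (norm_nonneg _) h4 two_ne_zero).1 h1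

/-- van der Corput for vectors of norm at most `c` -/
theorem gam2_vdh (h : ST_VDH) (V : Type) [NormedAddCommGroup V] [InnerProductSpace ℂ V] (t : ℕ → V)
    (M H : ℕ) (c : ℝ) (hc : 0 ≤ c) (ht : ∀ y, ‖t y‖ ≤ c) (hH : 1 ≤ H) :
    (H : ℝ) ^ 2 * ‖∑ y ∈ Icc 1 M, t y‖ ^ 2 ≤
    M * (∑ h ∈ range H, ∑ h' ∈ range H, ∑ y ∈ Icc 1 M,
      (inner ℂ (t (y + h)) (t (y + h')) : ℂ).re) + c ^ 2 * (4 * (H : ℝ) ^ 3 * M + 4 * (H : ℝ) ^ 4) := by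
  rcases hc.eq_or_lt with h0 | h0
  · have ht0 : ∀ y, t y = 0 := by
      intro y
      have := ht y
      rw [← h0] at this
      exact norm_le_zero_iff.1 this
    simp [ht0, ← h0]
  · have hs := h V (fun y => ((c : ℂ)⁻¹) • t y) M H (by
      intro y
      rw [norm_smul, norm_inv, Complex.norm_real, Real.norm_of_nonneg hc]
      rw [inv_mul_le_iff₀ h0, mul_one]
      exact ht y) hH
    have e1 : ‖∑ y ∈ Icc 1 M, ((c : ℂ)⁻¹) • t y‖ ^ 2 = (c ^ 2)⁻¹ * ‖∑ y ∈ Icc 1 M, t y‖ ^ 2 := by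
      rw [← Finset.smul_sum, norm_smul, norm_inv, Complex.norm_real, Real.norm_of_nonneg hc, mul_pow,
        inv_pow]
    have e2 : ∀ x y : V, (inner ℂ (((c : ℂ)⁻¹) • x) (((c : ℂ)⁻¹) • y) : ℂ).re =
        (c ^ 2)⁻¹ * (inner ℂ x y : ℂ).re := by
      intro x y
      rw [inner_smul_left, inner_smul_right, ← mul_assoc]
      have e3 : (starRingEnd ℂ) ((c : ℂ)⁻¹) * ((c : ℂ)⁻¹) = (((c ^ 2)⁻¹ : ℝ) : ℂ) := by
        rw [map_inv₀, Complex.conj_ofReal]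
        push_cast
        rw [← mul_inv, pow_two]
      rw [e3, Complex.re_ofReal_mul]
    rw [e1] at hs
    simp only [e2] at hs
    simp only [← Finset.mul_sum] at hs
    have hc2 : 0 < c ^ 2 := by positivity
    have hs2 := mul_le_mul_of_nonneg_left hs hc2.le
    have e4 : c ^ 2 * ((H : ℝ) ^ 2 * ((c ^ 2)⁻¹ * ‖∑ y ∈ Icc 1 M, t y‖ ^ 2)) =
        (H : ℝ) ^ 2 * ‖∑ y ∈ Icc 1 M, t y‖ ^ 2 := by
      field_simp
    rw [e4] at hs2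
    refine hs2.trans (le_of_eq ?_)
    field_simp
    ring

/-- the real part of a double sum is a square -/
theorem gam2_sq (Q : Finset ℕ) (a : ℕ → ℂ) :
    ∑ p ∈ Q, ∑ p' ∈ Q, (a p * conj (a p')).re = ‖∑ p ∈ Q, a p‖ ^ 2 := by
  have h1 : ((‖∑ p ∈ Q, a p‖ ^ 2 : ℝ) : ℂ) = ∑ p ∈ Q, ∑ p' ∈ Q, a p * conj (a p') := by
    rw [← Finset.sum_mul_sum, ← map_sum, Complex.mul_conj, Complex.normSq_eq_norm_sq]
  have h2 := congrArg Complex.re h1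
  rw [Complex.ofReal_re] at h2
  rw [h2, Complex.re_sum]
  refine Finset.sum_congr rfl fun p _ => ?_
  rw [Complex.re_sum]

theorem st_GAM2 (h : ST_VDH) : ST_GAM2 := by
  intro X S d φ b u x V Q H M hφ hb hu hH
  have hV : 0 ≤ V := (norm_nonneg _).trans (hb x)
  obtain ⟨t, ht⟩ : ∃ t : ℕ → ℕ → ℕ → EuclideanSpace ℂ (Fin d × Fin d), t = fun p p' y =>
    gam2_t (Wk S φ (p * y) b x) (Wk S φ (p' * y) b x) := ⟨_, rfl⟩
  have htn : ∀ p p' y, ‖t p p' y‖ ≤ V ^ 2 := by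
    intro p p' y
    rw [ht]
    simp only
    rw [gam2_norm, Wk_norm S φ b hφ, Wk_norm S φ b hφ, pow_two]
    exact mul_le_mul (hb _) (hb _) (norm_nonneg _) hV
  have hin : ∀ p p' y k k', (inner ℂ (t p p' (y + k)) (t p p' (y + k')) : ℂ) =
      EE S φ b (p * k) (p * k') (S^[p * y] x) * conj (EE S φ b (p' * k) (p' * k') (S^[p' * y] x)) := by
    intro p p' y k k'
    rw [ht]
    simp only
    rw [gam2_inner]
    have e1 : ∀ q k : ℕ, q * (y + k) = q * k + q * y := fun q k => by ring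
    rw [e1 p k, e1 p k', e1 p' k, e1 p' k', EE_shift S φ b hφ, EE_shift S φ b hφ]
  have hff : ∀ p p' y, ff S φ b u x (p * y) * conj (ff S φ b u x (p' * y)) =
      (inner ℂ (t p p' y) (gam2_t u u) : ℂ) := by
    intro p p' y
    rw [ht]
    simp only
    rw [gam2_inner, ff_eq, ff_eq]
  have huu : ‖gam2_t u u‖ ≤ 1 := by
    rw [gam2_norm]
    exact mul_le_one₀ hu (norm_nonneg _) hu
  -- the first sum
  have s1 : ∑ y ∈ Icc 1 M, ‖∑ p ∈ Q, ff S φ b u x (p * y)‖ ^ 2 ≤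
      ∑ p ∈ Q, ∑ p' ∈ Q, ‖∑ y ∈ Icc 1 M, t p p' y‖ := by
    have e1 : ∑ y ∈ Icc 1 M, ‖∑ p ∈ Q, ff S φ b u x (p * y)‖ ^ 2 =
        ∑ p ∈ Q, ∑ p' ∈ Q, (inner ℂ (∑ y ∈ Icc 1 M, t p p' y) (gam2_t u u) : ℂ).re := by
      simp only [← gam2_sq]
      rw [Finset.sum_comm]
      refine Finset.sum_congr rfl fun p _ => ?_
      rw [Finset.sum_comm]
      refine Finset.sum_congr rfl fun p' _ => ?_
      rw [sum_inner, Complex.re_sum]
      refine Finset.sum_congr rfl fun y _ => ?_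
      rw [hff]
    rw [e1]
    refine Finset.sum_le_sum fun p _ => Finset.sum_le_sum fun p' _ => ?_
    refine (Complex.re_le_norm _).trans ((norm_inner_le_norm _ _).trans ?_)
    exact mul_le_of_le_one_right (norm_nonneg _) huu
  have s0 : 0 ≤ ∑ y ∈ Icc 1 M, ‖∑ p ∈ Q, ff S φ b u x (p * y)‖ ^ 2 :=
    Finset.sum_nonneg fun _ _ => sq_nonneg _
  -- Cauchy-Schwarz
  have s2 : (∑ p ∈ Q, ∑ p' ∈ Q, ‖∑ y ∈ Icc 1 M, t p p' y‖) ^ 2 ≤
      (Q.card : ℝ) ^ 2 * ∑ p ∈ Q, ∑ p' ∈ Q, ‖∑ y ∈ Icc 1 M, t p p' y‖ ^ 2 := by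
    have e1 := sq_sum_le_card_mul_sum_sq (s := Q ×ˢ Q)
      (f := fun w : ℕ × ℕ => ‖∑ y ∈ Icc 1 M, t w.1 w.2 y‖)
    rw [Finset.sum_product, Finset.sum_product, Finset.card_product] at e1
    push_cast at e1
    rw [pow_two (Q.card : ℝ)]
    exact e1
  -- van der Corput
  have s3 : (H : ℝ) ^ 2 * ∑ p ∈ Q, ∑ p' ∈ Q, ‖∑ y ∈ Icc 1 M, t p p' y‖ ^ 2 ≤
      M * ∑ h ∈ range H, ∑ h' ∈ range H, ∑ y ∈ Icc 1 M,
        ‖∑ p ∈ Q, EE S φ b (p * h) (p * h') (S^[p * y] x)‖ ^ 2 +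
      4 * (Q.card : ℝ) ^ 2 * V ^ 4 * ((H : ℝ) ^ 3 * M + (H : ℝ) ^ 4) := by
    have e1 : (H : ℝ) ^ 2 * ∑ p ∈ Q, ∑ p' ∈ Q, ‖∑ y ∈ Icc 1 M, t p p' y‖ ^ 2 ≤
        ∑ p ∈ Q, ∑ p' ∈ Q, (M * (∑ k ∈ range H, ∑ k' ∈ range H, ∑ y ∈ Icc 1 M,
          (inner ℂ (t p p' (y + k)) (t p p' (y + k')) : ℂ).re) +
          (V ^ 2) ^ 2 * (4 * (H : ℝ) ^ 3 * M + 4 * (H : ℝ) ^ 4)) := by
      rw [Finset.mul_sum]
      refine Finset.sum_le_sum fun p _ => ?_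
      rw [Finset.mul_sum]
      refine Finset.sum_le_sum fun p' _ => ?_
      exact gam2_vdh h _ (t p p') M H (V ^ 2) (sq_nonneg V) (htn p p') hH
    refine e1.trans (le_of_eq ?_)
    simp only [Finset.sum_add_distrib, Finset.sum_const, nsmul_eq_mul, ← Finset.mul_sum]
    have e2 : ∑ p ∈ Q, ∑ p' ∈ Q, ∑ k ∈ range H, ∑ k' ∈ range H, ∑ y ∈ Icc 1 M,
        (inner ℂ (t p p' (y + k)) (t p p' (y + k')) : ℂ).re =
        ∑ h ∈ range H, ∑ h' ∈ range H, ∑ y ∈ Icc 1 M,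
        ‖∑ p ∈ Q, EE S φ b (p * h) (p * h') (S^[p * y] x)‖ ^ 2 := by
      have e3 : ∀ p ∈ Q, ∑ p' ∈ Q, ∑ k ∈ range H, ∑ k' ∈ range H, ∑ y ∈ Icc 1 M,
          (inner ℂ (t p p' (y + k)) (t p p' (y + k')) : ℂ).re =
          ∑ k ∈ range H, ∑ k' ∈ range H, ∑ y ∈ Icc 1 M, ∑ p' ∈ Q,
          (inner ℂ (t p p' (y + k)) (t p p' (y + k')) : ℂ).re := by
        intro p _
        rw [Finset.sum_comm]
        refine Finset.sum_congr rfl fun k _ => ?_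
        rw [Finset.sum_comm]
        refine Finset.sum_congr rfl fun k' _ => ?_
        rw [Finset.sum_comm]
      rw [Finset.sum_congr rfl e3, Finset.sum_comm]
      refine Finset.sum_congr rfl fun k _ => ?_
      rw [Finset.sum_comm]
      refine Finset.sum_congr rfl fun k' _ => ?_
      rw [Finset.sum_comm]
      refine Finset.sum_congr rfl fun y _ => ?_
      rw [← gam2_sq]
      refine Finset.sum_congr rfl fun p _ => Finset.sum_congr rfl fun p' _ => ?_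
      rw [hin]
    rw [e2]
    ring
  have hH2 : (0 : ℝ) ≤ (H : ℝ) ^ 2 := sq_nonneg _
  calc (H : ℝ) ^ 2 * (∑ y ∈ Icc 1 M, ‖∑ p ∈ Q, ff S φ b u x (p * y)‖ ^ 2) ^ 2
      ≤ (H : ℝ) ^ 2 * (∑ p ∈ Q, ∑ p' ∈ Q, ‖∑ y ∈ Icc 1 M, t p p' y‖) ^ 2 :=
        mul_le_mul_of_nonneg_left (pow_le_pow_left₀ s0 s1 2) hH2
    _ ≤ (H : ℝ) ^ 2 * ((Q.card : ℝ) ^ 2 * ∑ p ∈ Q, ∑ p' ∈ Q, ‖∑ y ∈ Icc 1 M, t p p' y‖ ^ 2) :=
        mul_le_mul_of_nonneg_left s2 hH2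
    _ = (Q.card : ℝ) ^ 2 * ((H : ℝ) ^ 2 * ∑ p ∈ Q, ∑ p' ∈ Q, ‖∑ y ∈ Icc 1 M, t p p' y‖ ^ 2) := by
        ring
    _ ≤ _ := mul_le_mul_of_nonneg_left s3 (sq_nonneg _)

end Pool.Agent.Helper16.BZ
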